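import Mathlib

/-!
# Project QD, part C, analytic half (MP_d112a4_gt): circle means over the Teichmueller disc of the
square torus.  Statements; the docstrings contain the proofs.

The disc is `ball 0 1`; `w` stands for the affine structure `ζ ↦ ζ + w conj ζ` on the square torus.
`rr t = tanh (t/2)` is the Euclidean radius of the circle of hyperbolic radius `t`, `cm f t` the mean
of `f` over this circle, `mb p` the Moebius map taking `0` to `p`, `PI f ρ w` the Poisson integral of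
`f` on the circle of radius `ρ`.  `Maj f`: `f ≥ 0` and `f` is touched from above at every point by
the real part of a holomorphic function.
-/

open Complex MeasureTheory Set Filter Topology Metric
open scoped Real ComplexConjugate

namespace Pool.Agent.Helper69.QC

/-- Moebius map of the unit disc with `mb p 0 = p`. -/
noncomputable def mb (p ζ : ℂ) : ℂ := (ζ + p) / (1 + conj p * ζ)

/-- Euclidean radius of the circle of hyperbolic radius `t`. -/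
noncomputable def rr (t : ℝ) : ℝ := Real.tanh (t / 2)

/-- Nonnegative, and touched from above at every point by the real part of a holomorphic
function. -/
def Maj (E : ℂ → ℝ) : Prop :=
  (∀ z ∈ ball (0 : ℂ) 1, 0 ≤ E z) ∧ ∀ p ∈ ball (0 : ℂ) 1, ∃ G : ℂ → ℂ,
    DifferentiableOn ℂ G (ball 0 1) ∧ (∀ z ∈ ball (0 : ℂ) 1, E z ≤ (G z).re) ∧ (G p).re = E p

/-- Mean over the circle of hyperbolic radius `t`. -/
noncomputable def cm (f : ℂ → ℝ) (t : ℝ) : ℝ := Real.circleAverage f 0 (rr t)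

/-- Poisson integral over the circle of radius `ρ`. -/
noncomputable def PI (f : ℂ → ℝ) (ρ : ℝ) (w : ℂ) : ℝ :=
  Real.circleAverage (fun s => poissonKernel 0 w s * f s) 0 ρ

/-- The Gaussian integer `p + q i`. -/
noncomputable def gi (p q : ℤ) : ℂ := (p : ℂ) + (q : ℂ) * I

/-- Affine structures all of whose nonzero lattice vectors have normalised length at least `ε`. -/
def Thk (ε : ℝ) : Set ℂ :=
  {w | ‖w‖ < 1 ∧ ∀ p q : ℤ, (p, q) ≠ (0, 0) →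
    ε ^ 2 * (1 - ‖w‖ ^ 2) ≤ ‖gi p q + w * conj (gi p q)‖ ^ 2}

/-- The orbit of `0` under `SL(2,ℤ)`: the linear map with rows `(p,q), (r,s)` is
`ζ ↦ a ζ + b conj ζ`, `2a = (p+s) + (r-q) i`, `2b = (p-s) + (r+q) i`, and its point is `b/a`. -/
def Orb : Set ℂ :=
  {w | ∃ p q r s : ℤ, p * s - q * r = 1 ∧
    w * (((p + s : ℤ) : ℂ) + ((r - q : ℤ) : ℂ) * I) =
      ((p - s : ℤ) : ℂ) + ((r + q : ℤ) : ℂ) * I}

/-- Composition of `Maj` with a holomorphic self map of the disc. -/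
theorem Maj.comp {f : ℂ → ℝ} (hf : Maj f) {φ : ℂ → ℂ} (hφ : DifferentiableOn ℂ φ (ball 0 1))
    (hm : ∀ z ∈ ball (0 : ℂ) 1, φ z ∈ ball (0 : ℂ) 1) : Maj (fun z => f (φ z)) := by
  refine ⟨fun z hz => hf.1 _ (hm z hz), fun p hp => ?_⟩
  obtain ⟨G, h1, h2, h3⟩ := hf.2 (φ p) (hm p hp)
  exact ⟨fun z => G (φ z), h1.comp hφ hm, fun z hz => h2 _ (hm z hz), h3⟩

/-! ## Part 1: the disc -/

/-- **RRB** (elementary facts about `rr t = tanh (t/2) = (e^t - 1)/(e^t + 1)`).  All items follow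
from this formula (`Real.tanh_eq_sinh_div_cosh`, multiply numerator and denominator by `2 e^{t/2}`);
surjectivity: `t = log ((1+r)/(1-r))`; addition formula: put `x = e^s`, `y = e^t` and clear
denominators. -/
def St_RRB : Prop :=
  (∀ t : ℝ, 0 ≤ t → 0 ≤ rr t) ∧ (∀ t : ℝ, rr t < 1) ∧ StrictMono rr ∧
  (∀ t : ℝ, (1 + rr t) / (1 - rr t) = Real.exp t) ∧
  (∀ t : ℝ, 1 - rr t = 2 / (Real.exp t + 1)) ∧
  (∀ s t : ℝ, 0 ≤ s → 0 ≤ t → rr (s + t) = (rr s + rr t) / (1 + rr s * rr t)) ∧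
  (∀ r : ℝ, 0 ≤ r → r < 1 → ∃ t : ℝ, 0 ≤ t ∧ rr t = r) ∧ rr 0 = 0

/-- **MBB** (Moebius maps).  `‖1 + conj p ζ‖² - ‖ζ + p‖² = (1-‖p‖²)(1-‖ζ‖²) > 0`, so the denominator
is nonzero and `‖mb p ζ‖² = 1 - (1-‖p‖²)(1-‖ζ‖²)/‖1 + conj p ζ‖² < 1`; since
`‖1 + conj p ζ‖ ≤ 1 + PZ` (`P = ‖p‖`, `Z = ‖ζ‖`), `‖mb p ζ‖² ≤ 1 - (1-P²)(1-Z²)/(1+PZ)²
= ((P+Z)/(1+PZ))²`.  Inverse: direct computation.  `mb (-w) p = (p-w)/(1 - conj w p)` and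
`‖1 - conj w p‖ = ‖1 - conj p w‖` (conjugates).  Last item: for `ζ` in the disc
`mb (-w) (mb p ζ) = (ζ + p - w(1 + conj p ζ))/(1 + conj p ζ - conj w (ζ + p))
= ((1 - w conj p) ζ + (p - w))/((1 - conj w p) + (conj p - conj w) ζ)`
`= u * mb q ζ`, `q = (p-w)/(1 - w conj p)`, `u = (1 - w conj p)/(1 - conj w p)`, `‖u‖ = 1`,
`‖q‖ = ‖mb (-w) p‖`; use the second item for `q`. -/
def St_MBB : Prop :=
  ∀ p ∈ ball (0 : ℂ) 1,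
    DifferentiableOn ℂ (mb p) (ball 0 1) ∧ mb p 0 = p ∧
    (∀ ζ ∈ ball (0 : ℂ) 1, mb p ζ ∈ ball (0 : ℂ) 1 ∧
      ‖mb p ζ‖ ≤ (‖p‖ + ‖ζ‖) / (1 + ‖p‖ * ‖ζ‖) ∧
      mb (-p) (mb p ζ) = ζ ∧ mb p (mb (-p) ζ) = ζ) ∧
    (∀ w ∈ ball (0 : ℂ) 1, ‖mb (-w) p‖ = ‖mb (-p) w‖ ∧
      ∀ ζ ∈ ball (0 : ℂ) 1,
        ‖mb (-w) (mb p ζ)‖ ≤ (‖mb (-w) p‖ + ‖ζ‖) / (1 + ‖mb (-w) p‖ * ‖ζ‖))

/-- **HAR** (Harnack).  Let `G` be the majorant at `w`; `g = G ∘ mb w` (St_MBB) is holomorphic on the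
disc, `Re g ≥ f ∘ mb w ≥ 0`, `Re g(0) = f(w)`.  For `‖ζ‖ < R < 1` the Poisson formula
(`DiffContOnCl.circleAverage_re_herglotzRieszKernel_smul`, real parts) and the upper bound of the
kernel (`re_herglotzRieszKernel_le`) give
`Re g(ζ) ≤ (R + ‖ζ‖)/(R - ‖ζ‖) Re g(0)` (mean value property for the right hand side); let `R → 1`.
(An existing Harnack inequality of this shape: search the repository for `harnack`, e.g.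
St_HK in Pool/Agent/Helper35/PQF/St.lean, proved in PQF/All.lean.)  *Continuity* at `p` in the disc:
with `ζ = mb (-p) z → 0` as `z → p`: `f z = f (mb p ζ) ≤ (1+‖ζ‖)/(1-‖ζ‖) f p`, and
`p = mb z ζ'` with `‖ζ'‖ = ‖ζ‖` (`ζ' = mb (-z) p`) gives `f p ≤ (1+‖ζ‖)/(1-‖ζ‖) f z`; squeeze. -/
def St_HAR : Prop :=
  ∀ f : ℂ → ℝ, Maj f → ContinuousOn f (ball 0 1) ∧
    ∀ w ∈ ball (0 : ℂ) 1, ∀ ζ ∈ ball (0 : ℂ) 1,
      f (mb w ζ) ≤ (1 + ‖ζ‖) / (1 - ‖ζ‖) * f w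

/-- **POA** (Poisson integral below).  `f` is continuous on the disc (St_HAR), so everything is
circle integrable.  (1) Let `G` be the majorant at `w`: the kernel is `≥ 0` on the circle
(`poissonKernel 0 w s = (ρ² - ‖w‖²)/‖s-w‖²`), so
`PI f ρ w ≤ circleAverage (poissonKernel 0 w * Re G) 0 ρ = Re G w = f w`
(`DiffContOnCl.circleAverage_poissonKernel_smul`, `G` is differentiable on a neighbourhood of the
closed ball of radius `ρ`; take real parts with `Complex.reCLM.circleAverage_comp_comm`).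
(2) Let `G` be the majorant at `0`.  `f w - PI f ρ w ≤ Re G w - PI f ρ w
= circleAverage (poissonKernel 0 w * (Re G - f)) 0 ρ ≤ K circleAverage (Re G - f) 0 ρ
= K (Re G 0 - circleAverage f 0 ρ) = K (f 0 - circleAverage f 0 ρ)`, `K = (ρ+‖w‖)/(ρ-‖w‖)`
(`re_herglotzRieszKernel_le` with `poissonKernel_eq_re_herglotzRieszKernel`; `Re G - f ≥ 0`). -/
def St_POA : Prop :=
  ∀ f : ℂ → ℝ, Maj f → ∀ ρ : ℝ, 0 < ρ → ρ < 1 → ∀ w ∈ ball (0 : ℂ) ρ,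
    PI f ρ w ≤ f w ∧
      f w - PI f ρ w ≤ (ρ + ‖w‖) / (ρ - ‖w‖) * (f 0 - Real.circleAverage f 0 ρ)

/-- **POC** (Poisson integral is harmonic).  `H ζ = circleAverage (herglotzRieszKernel 0 ζ • f) 0 ρ`
is complex differentiable on `ball 0 ρ` (`differentiableOn_circleAverage_herglotzRieszKernel_smul`)
and `PI f ρ = Re H` there (`re_circleAverage_herglotzRieszKernel_smul`,
`poissonKernel_eq_re_herglotzRieszKernel`).  The kernel with `w = 0` is `1` on the circle.  Hence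
continuity, the second item, and the last one (mean value property of `H` on the closed ball of
radius `r < ρ`; `circleAverage` of a function differentiable on a neighbourhood of the closed ball
is its value at the centre, take real parts).  Third item: the set `{‖ζ‖ < 1, ‖φ ζ‖ < ρ}` is open
and contains the closed ball of radius `r`; `H ∘ φ` is differentiable on it, so
`PI f ρ (φ 0) = Re H (φ 0) = circleAverage (Re H ∘ φ) 0 r ≤ circleAverage (f ∘ φ) 0 r` by St_POA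
(first part) and `circleAverage_mono` (`f ∘ φ` is continuous on the closed ball). -/
def St_POC : Prop :=
  ∀ f : ℂ → ℝ, Maj f → ∀ ρ : ℝ, 0 < ρ → ρ < 1 →
    ContinuousOn (PI f ρ) (ball 0 ρ) ∧ PI f ρ 0 = Real.circleAverage f 0 ρ ∧
    (∀ φ : ℂ → ℂ, DifferentiableOn ℂ φ (ball 0 1) → ∀ r : ℝ, 0 ≤ r → r < 1 →
      (∀ ζ : ℂ, ‖ζ‖ ≤ r → ‖φ ζ‖ < ρ) →
      PI f ρ (φ 0) ≤ Real.circleAverage (fun ζ => f (φ ζ)) 0 r) ∧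
    (∀ r : ℝ, 0 ≤ r → r < ρ → Real.circleAverage (PI f ρ) 0 r = Real.circleAverage f 0 ρ)

/-- **DEF** (the defect at nearby points).  Choose `R` with `(r0+r1)/(1+r0 r1) < ρ := rr R < 1`
(St_RRB; also `ρ > r1`).  Put `w = mb p ζ`, `f = E ∘ mb w` (`Maj` by `Maj.comp`), `ζ0 = mb (-w) p`:
`‖ζ0‖ = ‖mb (-p) w‖ = ‖ζ‖ ≤ r1` and `mb w ζ0 = p`.  `φ = mb (-w) ∘ mb p`: holomorphic self map of the
disc, `φ 0 = ζ0`, `f (φ η) = E (mb p η)`, and for `‖η‖ ≤ r0`: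
`‖φ η‖ ≤ (‖ζ0‖+‖η‖)/(1+‖ζ0‖‖η‖) ≤ (r1+r0)/(1+r1 r0) < ρ` (the function `(x+y)/(1+xy)` is monotone in
each variable on `[0,1]`).  St_POC: `PI f ρ ζ0 ≤ circleAverage (E ∘ mb p) 0 r0`.  So
`c E(p)² ≤ E p - circleAverage (E ∘ mb p) 0 r0 ≤ f ζ0 - PI f ρ ζ0
≤ (ρ+‖ζ0‖)/(ρ-‖ζ0‖) (f 0 - circleAverage f 0 ρ) ≤ K (E w - circleAverage (E ∘ mb w) 0 ρ)`,
`K = (ρ+r1)/(ρ-r1)` (St_POA; the last bracket is `≥ 0`: it is `≥ ` a positive multiple of a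
nonnegative number by the same inequality, or by St_POC with `φ = id`-type comparison).  Harnack:
`E w ≤ (1+r1)/(1-r1) E p`.  `c' = c ((1-r1)/(1+r1))² / K`. -/
def St_DEF : Prop :=
  ∀ c r0 r1 : ℝ, 0 < c → 0 ≤ r0 → r0 < 1 → 0 ≤ r1 → r1 < 1 → ∃ c' : ℝ, 0 < c' ∧ ∃ R : ℝ, 0 ≤ R ∧
    ∀ E : ℂ → ℝ, Maj E → ∀ p ∈ ball (0 : ℂ) 1,
      c * E p ^ 2 ≤ E p - Real.circleAverage (fun ζ => E (mb p ζ)) 0 r0 →
      ∀ ζ : ℂ, ‖ζ‖ ≤ r1 →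
        c' * E (mb p ζ) ^ 2 ≤
          E (mb p ζ) - Real.circleAverage (fun η => E (mb (mb p ζ) η)) 0 (rr R)

/-- **DIF** (integrated strictness).  `ρ = rr (t + R')`.  For `‖w‖ = rr t` and `‖η‖ ≤ rr R`:
`‖mb w η‖ ≤ rr (t + R) < ρ` (St_MBB, St_RRB, monotone), so St_POC with `φ = mb w`, `r = rr R` gives
`PI E ρ w ≤ circleAverage (E ∘ mb w) 0 (rr R)`.  Hence
`c 1_T(w) E(w)² ≤ E w - PI E ρ w` for all `w` on the circle `‖w‖ = rr t` (for `w ∉ T` by St_POA).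
Average over the circle (`rr t < ρ`) with the last item of St_POC.  If `rr t = 0` the circle is a
point, the same argument applies.  Integrability of `1_T E²`: bounded measurable (`E` is continuous
on the disc; `T` is measurable). -/
def St_DIF : Prop :=
  ∀ E : ℂ → ℝ, Maj E → ∀ T : Set ℂ, MeasurableSet T → ∀ c R : ℝ, 0 < c → 0 ≤ R →
    (∀ w ∈ T, w ∈ ball (0 : ℂ) 1 →
      c * E w ^ 2 ≤ E w - Real.circleAverage (fun η => E (mb w η)) 0 (rr R)) →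
    ∀ t R' : ℝ, 0 ≤ t → R < R' →
      c * cm (T.indicator (fun z => E z ^ 2)) t ≤ cm E t - cm E (t + R')

/-- **MON**.  For `t < t'`: St_POC with `φ = id`, `r = rr t`, `ρ = rr t'`. -/
def St_MON : Prop :=
  ∀ E : ℂ → ℝ, Maj E → ∀ t t' : ℝ, 0 ≤ t → t ≤ t' → cm E t' ≤ cm E t ∧ 0 ≤ cm E t ∧
    ∀ M : ℝ, (∀ z ∈ ball (0 : ℂ) 1, E z ≤ M) → cm E t ≤ M

/-- **CSI** (Cauchy-Schwarz): `(mean g)² ≤ mean g²` for `g = 1_T E`, bounded measurable on the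
circle. -/
def St_CSI : Prop :=
  ∀ E : ℂ → ℝ, Maj E → ∀ T : Set ℂ, MeasurableSet T → ∀ t : ℝ, 0 ≤ t →
    cm (T.indicator E) t ≤ Real.sqrt (cm (T.indicator (fun z => E z ^ 2)) t)

/-- **SHA** (shadow).  Put `s = 1 - rr D ∈ (0,1]`, `ρ = rr t`, `w = circleMap 0 (rr D) θ`,
`‖w‖ = rr D < ρ`.  St_POA: `E w ≥ PI E ρ w = (2π)⁻¹ ∫_0^{2π} P(φ) E(circleMap 0 ρ φ) dφ
= (2π)⁻¹ ∫_{θ-π}^{θ+π} ... ≥ (2π)⁻¹ ∫_{θ-s}^{θ+s} P(φ) E(circleMap 0 ρ φ) dφ`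
(periodicity, `s ≤ 1 < π`, integrand `≥ 0`), `P(φ) = (ρ² - ‖w‖²)/‖circleMap 0 ρ φ - w‖²`.
For `|h| ≤ s`, `φ = θ + h`: `‖circleMap 0 ρ φ - w‖ ≤ (ρ - ‖w‖) + ρ|h| ≤ s + s = 2s`
(`ρ - ‖w‖ ≤ 1 - rr D = s`, `‖e^{ih} - 1‖ ≤ |h|`), and
`ρ - ‖w‖ ≥ rr (D+1) - rr D = 2(e-1)e^D/((e^D+1)(e^{D+1}+1)) = s (e-1)e^D/(e^{D+1}+1)
≥ s (e-1)/(e+1) ≥ 0.4 s`, `ρ + ‖w‖ ≥ ρ ≥ rr 1 ≥ 0.4`.  So `P ≥ 0.16 s/(4s²) = 0.04/s` and
`∫_{|h| ≤ s} E ≤ 2π s/0.04 E w ≤ 200 s E w` (`2π/0.04 = 157.1`). -/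
def St_SHA : Prop :=
  ∀ E : ℂ → ℝ, Maj E → ∀ D t : ℝ, 0 ≤ D → D + 1 ≤ t → ∀ θ : ℝ,
    ∫ h in (-(1 - rr D))..(1 - rr D), E (circleMap 0 (rr t) (θ + h)) ≤
      200 * (1 - rr D) * E (circleMap 0 (rr D) θ)

/-! ## Part 2: the lattice -/

/-- **STB** (stability).  `w' = w e^{iκ}`, `‖w'‖ = ‖w‖`.  For `λ = gi p q`:
`‖λ + w conj λ‖ ≤ ‖λ + w' conj λ‖ + ‖w‖ ‖e^{iκ} - 1‖ ‖λ‖ ≤ ‖λ + w' conj λ‖ + |κ| ‖λ‖
≤ ‖λ + w' conj λ‖ + (1-‖w‖) ‖λ‖ ≤ 2 ‖λ + w' conj λ‖` (`‖λ + w' conj λ‖ ≥ (1-‖w'‖)‖λ‖`).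
Square.  Measurability: countable intersection of closed conditions and an open one. -/
def St_STB : Prop :=
  (∀ ε : ℝ, 0 < ε → ∀ w ∈ Thk ε, ∀ κ : ℝ, |κ| ≤ 1 - ‖w‖ →
    w * Complex.exp (κ * I) ∈ Thk (ε / 2)) ∧ ∀ ε : ℝ, MeasurableSet (Thk ε)

/-- **TRN** (transport).  `s = 1 - rr D > 0`, `f θ = E (circleMap 0 (rr t) θ)`, `1_A` the indicator of
`A = {θ : circleMap 0 (rr D) θ ∈ Thk ε}`, `1_{A'}` the same with `Thk (ε/2)`; all functions are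
`2π`-periodic, measurable and bounded.  By periodicity, for every `h`:
`∫_0^{2π} 1_A f = ∫_0^{2π} 1_A(θ+h) f(θ+h) dθ`.  By St_STB (`‖circleMap 0 (rr D) θ‖ = rr D`,
`circleMap 0 r (θ+h) = circleMap 0 r θ * exp (h I)`, used with `κ = -h`): `1_A(θ+h) ≤ 1_{A'}(θ)` for
`|h| ≤ s`.  Average over `h ∈ [-s,s]` and exchange the integrals (Fubini):
`∫ 1_A f ≤ (2s)⁻¹ ∫_0^{2π} 1_{A'}(θ) ∫_{-s}^{s} f(θ+h) dh dθ ≤ (2s)⁻¹ 200 s ∫ 1_{A'} E(circleMap 0 (rr D) θ)`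
by St_SHA. -/
def St_TRN : Prop :=
  ∀ E : ℂ → ℝ, Maj E → ∀ ε : ℝ, 0 < ε → ∀ D t : ℝ, 0 ≤ D → D + 1 ≤ t →
    ∫ θ in (0 : ℝ)..(2 * π), ({θ : ℝ | circleMap 0 (rr D) θ ∈ Thk ε}.indicator
      (fun θ => E (circleMap 0 (rr t) θ))) θ ≤
      100 * ∫ θ in (0 : ℝ)..(2 * π), (Thk (ε / 2)).indicator E (circleMap 0 (rr D) θ)

/-- **FRM** (formula).  With `u = e^{iθ/2}`, `z = λ conj u` (`λ = gi p q`), `r = rr t`:
`λ + r u² conj λ = u (z + r conj z)`, `‖z + r conj z‖² = (1+r)² (Re z)² + (1-r)² (Im z)²`, and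
`(1+r)² = (1-r²) e^t`, `(1-r)² = (1-r²) e^{-t}` by St_RRB.
`Re z = p cos(θ/2) + q sin(θ/2)`, `Im z = q cos(θ/2) - p sin(θ/2)`.  (Or: expand both sides, with
`cos θ = 2cos²(θ/2) - 1`, `sin θ = 2 sin(θ/2) cos(θ/2)`.)
Second item (Hadamard): for real vectors `(a,b)`, `(c,d)` and `x = e^t`:
`(x a² + x⁻¹ b²)(x c² + x⁻¹ d²) ≥ (ad - bc)²` (Cauchy-Schwarz for `(√x a, b/√x)` and
`(d/√x, -√x c)`), applied to the vectors `z, z'`, whose determinant is `± (p q' - q p')`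
(rotation), so the product is `≥ 1` when this integer is not `0`. -/
def St_FRM : Prop :=
  (∀ (t θ : ℝ) (p q : ℤ), ‖gi p q + circleMap 0 (rr t) θ * conj (gi p q)‖ ^ 2 =
    (1 - rr t ^ 2) * (Real.exp t * (p * Real.cos (θ / 2) + q * Real.sin (θ / 2)) ^ 2 +
      Real.exp (-t) * (q * Real.cos (θ / 2) - p * Real.sin (θ / 2)) ^ 2)) ∧
  ∀ (t θ : ℝ) (p q p' q' : ℤ), p * q' - q * p' ≠ 0 →
    1 ≤ (Real.exp t * (p * Real.cos (θ / 2) + q * Real.sin (θ / 2)) ^ 2 +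
      Real.exp (-t) * (q * Real.cos (θ / 2) - p * Real.sin (θ / 2)) ^ 2) *
      (Real.exp t * (p' * Real.cos (θ / 2) + q' * Real.sin (θ / 2)) ^ 2 +
      Real.exp (-t) * (q' * Real.cos (θ / 2) - p' * Real.sin (θ / 2)) ^ 2)

/-- **CNA** (a common short vector).  Write `N_j(p,q) = e^j x² + e^{-j} y²`,
`x = p cos(θ/2) + q sin(θ/2)`, `y = q cos(θ/2) - p sin(θ/2)`, `x² + y² = p² + q²`.  For
`a ≤ j ≤ b` the hypothesis and St_FRM (`1 - rr j² > 0`, `‖circleMap 0 (rr j) θ‖ = rr j < 1`) give a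
nonzero `(p,q)` with `N_j(p,q) < ε²`; dividing by the gcd we may assume `IsCoprime p q`.
`N_j ≤ e N_{j+1}`.  If `(p,q)` works for `j` and `(p',q')` for `j+1` (both coprime), then
`N_j(p,q) N_j(p',q') ≤ e N_j(p,q) N_{j+1}(p',q') < e ε⁴ ≤ e/16 < 1`, so `p q' = q p'` (St_FRM) and,
both being coprime, `(p',q') = ±(p,q)`; hence `(p,q)` works for `j+1` too.  By induction the `(p,q)`
of `j = a` works for all `j ≤ b`.  `j = b`: `e^b x² < ε² ≤ 1/4`, so `|x| ≤ e^{-b/2}/2`.  `j = a`: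
`e^{-a}(x² + y²) ≤ N_a < 1/4`, so `p² + q² ≤ e^a`. -/
def St_CNA : Prop :=
  ∀ ε : ℝ, 0 < ε → ε ≤ 1 / 2 → ∀ a b : ℕ, a ≤ b → ∀ θ : ℝ,
    (∀ j : ℕ, a ≤ j → j ≤ b → circleMap 0 (rr j) θ ∉ Thk ε) →
    ∃ p q : ℤ, (p, q) ≠ (0, 0) ∧ (p : ℝ) ^ 2 + (q : ℝ) ^ 2 ≤ Real.exp a ∧
      |(p : ℝ) * Real.cos (θ / 2) + q * Real.sin (θ / 2)| ≤ Real.exp (-(b : ℝ) / 2) / 2

/-- **CNB** (measure of one strip).  `ρ = √(p²+q²) ≥ m = max |p| |q| ≥ 1`, `p = ρ cos α`,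
`q = ρ sin α` (`Complex.arg`): the function is `ρ |cos (θ/2 - α)|`, `2π`-periodic in `θ`.  By
periodicity the measure of the set in `[0,2π]` equals the measure of
`{τ ∈ [0,2π] : |cos (τ/2)| ≤ δ/ρ}` (integral of the indicator function, shift by `2α`).  There
`|cos (τ/2)| = |sin (π/2 - τ/2)| ≥ (2/π)|π/2 - τ/2| = |π-τ|/π` (`Real.mul_le_sin`), so
`|τ - π| ≤ π δ/ρ`, an interval of length `2π δ/ρ ≤ 2πδ/m`. -/
def St_CNB : Prop :=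
  ∀ p q : ℤ, (p, q) ≠ (0, 0) → ∀ δ : ℝ, 0 ≤ δ →
    volume {θ : ℝ | θ ∈ Icc 0 (2 * π) ∧
      |(p : ℝ) * Real.cos (θ / 2) + q * Real.sin (θ / 2)| ≤ δ} ≤
      ENNReal.ofReal (2 * π * δ / max |(p : ℝ)| |(q : ℝ)|)

/-- **CNC** (lattice sum).  Induction on `N`: the box of `N+1` minus the box of `N` has
`(2N+3)² - (2N+1)² = 8(N+1)` elements, each with maximum `N+1`: the sum increases by `8`. -/
def St_CNC : Prop :=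
  ∀ N : ℕ, ∑ x ∈ (Finset.Icc (-(N : ℤ)) N ×ˢ Finset.Icc (-(N : ℤ)) N).filter
    (fun x => x ≠ (0, 0)), (1 : ℝ) / max |(x.1 : ℝ)| |(x.2 : ℝ)| ≤ 8 * N

/-- **CNT** (angles missing the thick part for a long time).  `N = ⌊e^{a/2}⌋`.  By St_CNA the set is
contained in the union over the nonzero `(p,q)` with `|p|,|q| ≤ N` of the sets of St_CNB with
`δ = e^{-b/2}/2`.  So the measure is at most
`Σ ofReal (2π δ/max) = ofReal (2π δ Σ 1/max) ≤ ofReal (2π δ 8 N) ≤ ofReal (8π e^{(a-b)/2})`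
(St_CNC), `8π ≤ 100`. -/
def St_CNT : Prop :=
  ∀ ε : ℝ, 0 < ε → ε ≤ 1 / 2 → ∀ a b : ℕ, a ≤ b →
    volume {θ : ℝ | θ ∈ Icc 0 (2 * π) ∧
      ∀ j : ℕ, a ≤ j → j ≤ b → circleMap 0 (rr j) θ ∉ Thk ε} ≤
      ENNReal.ofReal (100 * Real.exp (-((b : ℝ) - a) / 2))

/-- **REC** (recurrence).  Cover `[0,2π]` by `A_j = {θ : circleMap 0 (rr j) θ ∈ Thk ε}`,
`j = t-S, …, t-1`, and the set `B` of St_CNT (`a = t-S`, `b = t-1`):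
`∫_0^{2π} E(circleMap 0 (rr t) θ) ≤ Σ_j ∫ 1_{A_j} E(circleMap 0 (rr t) θ) + M |B|
≤ 100 Σ_j ∫ 1_{Thk (ε/2)} E (circleMap 0 (rr j) θ) + M 100 e^{-(S-1)/2}` (St_TRN with `D = j`,
`j + 1 ≤ t`).  Divide by `2π`: `100 e^{1/2}/(2π) ≤ 30`. -/
def St_REC : Prop :=
  ∀ E : ℂ → ℝ, Maj E → ∀ M : ℝ, (∀ z ∈ ball (0 : ℂ) 1, E z ≤ M) →
    ∀ ε : ℝ, 0 < ε → ε ≤ 1 / 2 → ∀ S t : ℕ, 1 ≤ S → S ≤ t →
      cm E t ≤ 100 * ∑ j ∈ Finset.Ico (t - S) t, cm ((Thk (ε / 2)).indicator E) j +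
        30 * M * Real.exp (-(S : ℝ) / 2)

/-- **RDA** (reduced basis).  `N(λ) = ‖λ + w conj λ‖²`, `Δ = 1 - ‖w‖² > 0`.  For `λ = gi p q`,
`μ = gi r s` put `A λ = λ + w conj λ`; `Im (conj (Aλ) Aμ) = Δ (p s - q r)` and with
`B = Re (conj (Aλ) Aμ)`: `N(λ) N(μ) = B² + Δ² (ps-qr)²`.  `N(λ) ≥ (1-‖w‖)²‖λ‖²`, so only finitely
many `λ` have `N(λ) ≤ N(1)` and there is a nonzero `λ` with `N(λ)` minimal; it is coprime (otherwise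
divide by the gcd).  Bezout: `μ₀` with `p s - q r = 1`; `μ = μ₀ + kλ`, `k` an integer with
`|B| ≤ N(λ)/2` (`B(λ, μ₀ + kλ) = B(λ,μ₀) + k N(λ)`, round).  `N(μ) ≥ N(λ)`, so
`N(λ)² ≤ N(λ)N(μ) = B² + Δ² ≤ N(λ)²/4 + Δ²`, `N(λ) ≤ (3/2) Δ`.  `N(λ) ≥ ε²Δ` (`w ∈ Thk ε`), so
`N(μ) = Δ²/N(λ) + B²/N(λ) ≤ Δ/ε² + N(λ)/4 ≤ Δ (1/ε² + 1/2)`.  Sum `≤ Δ (1/ε² + 2)`. -/
def St_RDA : Prop :=
  ∀ ε : ℝ, 0 < ε → ∀ w ∈ Thk ε, ∃ p q r s : ℤ, p * s - q * r = 1 ∧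
    ‖gi p q + w * conj (gi p q)‖ ^ 2 + ‖gi r s + w * conj (gi r s)‖ ^ 2 ≤
      (1 - ‖w‖ ^ 2) * (1 / ε ^ 2 + 2)

/-- **RED** (thick points are near the orbit).  `p,q,r,s` from St_RDA, `λ = gi p q`, `μ = gi r s`,
`a = (λ - iμ)/2`, `b = (λ + iμ)/2`: `‖a‖² - ‖b‖² = ps - qr = 1`.  `α = a + w conj b`,
`β = b + w conj a`: `‖α‖² - ‖β‖² = 1 - ‖w‖² = Δ`, `λ + w conj λ = α + β`,
`μ + w conj μ = i(α - β)`, so `2(‖α‖² + ‖β‖²) ≤ Δ C`, `C = 1/ε² + 2`.  `ζ' = β/α`: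
`‖ζ'‖² = ‖β‖²/‖α‖² ≤ (C-2)/(C+2)` (from `‖α‖² + ‖β‖² ≤ (C/2)(‖α‖² - ‖β‖²)`).
`p₀ = -b/conj a`, `ζ = ζ' a/conj a`, `‖ζ‖ = ‖ζ'‖`.  From `β = ζ' α`:
`w (conj a - ζ' conj b) = ζ' a - b`, i.e. `w = mb p₀ ζ` (`conj p₀ = -conj b/a`,
`conj p₀ ζ = -ζ' conj b/conj a`; the denominator is not zero as `‖conj p₀ ζ‖ < 1`).
`p₀ ∈ Orb` with the integers `(s, -r, -q, p)`: `2 conj a = (p+s) + (r-q) i`,
`-2b = (s-p) - (q+r) i`.  `‖p₀‖ < 1` as `‖b‖ < ‖a‖`. -/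
def St_RED : Prop :=
  ∀ ε : ℝ, 0 < ε → ∃ r1 : ℝ, 0 ≤ r1 ∧ r1 < 1 ∧ ∀ w ∈ Thk ε,
    ∃ p ∈ Orb, p ∈ ball (0 : ℂ) 1 ∧ ∃ ζ : ℂ, ‖ζ‖ ≤ r1 ∧ w = mb p ζ

/-! ## Part 3: sequences -/

/-- **NMW** (window averaging).  Each `j` is counted for `t ∈ (j, j+S]`, at most `S` times, and
`T ≤ j < 2T` whenever it is counted. -/
def St_NMW : Prop :=
  ∀ (f : ℕ → ℝ) (S T : ℕ), (∀ j, 0 ≤ f j) → S ≤ T →
    ∑ t ∈ Finset.Ioc (T + S) (2 * T), ∑ j ∈ Finset.Ico (t - S) t, f j ≤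
      S * ∑ j ∈ Finset.Ico T (2 * T), f j

/-- **NMA** (decay of the energy).  For `k ≥ 6` put `T = 2^k`, `S = 4(k+1) ≤ 2^(k-1) = T/2`.
Telescoping: `Σ_{T ≤ j < 2T} c Q_j ≤ Σ (M_j - M_{j+R}) ≤ R M_T` (`M ≥ 0` antitone: the sum is
`Σ_{j ∈ [T,T+R)} M_j - Σ_{j ∈ [2T,2T+R)} M_j`; by induction on `R`, or on the number of terms).
For `t ∈ (T+S, 2T]` one has `M_{2T} ≤ M_t`; average over these `T - S ≥ T/2` values of `t` and use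
St_NMW for `√Q` and Cauchy-Schwarz:
`M_{2T} ≤ (2/T) C1 S Σ_{[T,2T)} √Q_j + C2 e^{-S/2} ≤ (2/T) C1 S √(T R M_T/c) + C2 e^{-S/2}`
`≤ A (k+1) √(M_T/T) + C2 4^{-(k+1)}`, `A = 8 C1 √(R/c)` (`e^{-2(k+1)} ≤ 4^{-(k+1)}`).
Take `K = (2A+1+C2)² + 64 M0`.  `k ≤ 6`: `M ≤ M0 ≤ K/64`.  Step: if `M_T ≤ K (k+1)²/2^k`, then
`M_{2T} ≤ A √K (k+1)²/2^k + C2/4^{k+1} ≤ K (k+2)²/2^{k+1}` because `2A√K + C2 ≤ K`
(`K - 2A√K = √K(√K - 2A) ≥ √K (1 + C2) ≥ C2`). -/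
def St_NMA : Prop :=
  ∀ (c M0 C1 C2 : ℝ) (R : ℕ), 0 < c → 0 ≤ M0 → 0 ≤ C1 → 0 ≤ C2 → ∃ K : ℝ, 0 ≤ K ∧
    ∀ M Q : ℕ → ℝ, (∀ j, 0 ≤ M j ∧ M j ≤ M0 ∧ 0 ≤ Q j) → Antitone M →
      (∀ j, c * Q j ≤ M j - M (j + R)) →
      (∀ S t : ℕ, 1 ≤ S → S ≤ t →
        M t ≤ C1 * ∑ j ∈ Finset.Ico (t - S) t, Real.sqrt (Q j) +
          C2 * Real.exp (-(S : ℝ) / 2)) →
      ∀ k : ℕ, M (2 ^ k) ≤ K * ((k : ℝ) + 1) ^ 2 / 2 ^ k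

/-- **NMB** (decay of the defect).  Same averaging as in St_NMA (`T = 2^k`, `k ≥ 6`,
`S = 4(k+1)`): `V_{2T} ≤ (2/T) C1 S Σ_{[T,2T)} Q_j + C2 e^{-S/2} ≤ (2/T) C1 S (R/c) M_T + C2 4^{-(k+1)}
≤ 8 C1 (R/c) (k+1) K1 (k+1)²/4^k + C2/4^{k+1} ≤ K (k+2)³/4^{k+1}` with `K ≥ 32 C1 (R/c) K1 + C2`;
for `k ≤ 6`: `V ≤ V0 ≤ K/4^6` with `K ≥ 4096 V0`. -/
def St_NMB : Prop :=
  ∀ (c V0 C1 C2 K1 : ℝ) (R : ℕ), 0 < c → 0 ≤ V0 → 0 ≤ C1 → 0 ≤ C2 → 0 ≤ K1 → ∃ K : ℝ, 0 ≤ K ∧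
    ∀ M Q V : ℕ → ℝ, (∀ j, 0 ≤ M j ∧ 0 ≤ Q j ∧ 0 ≤ V j ∧ V j ≤ V0) → Antitone M → Antitone V →
      (∀ j, c * Q j ≤ M j - M (j + R)) →
      (∀ k : ℕ, M (2 ^ k) ≤ K1 * ((k : ℝ) + 1) ^ 2 / 2 ^ k) →
      (∀ S t : ℕ, 1 ≤ S → S ≤ t →
        V t ≤ C1 * ∑ j ∈ Finset.Ico (t - S) t, Q j + C2 * Real.exp (-(S : ℝ) / 2)) →
      ∀ k : ℕ, V (2 ^ k) ≤ K * ((k : ℝ) + 1) ^ 3 / 4 ^ k

/-- **TOPC** (assembly: helper69). -/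
def St_TOPC : Prop :=
  ∀ M c r0 C : ℝ, 0 < M → 0 < c → 0 ≤ r0 → r0 < 1 → 0 ≤ C → ∃ K : ℝ, 0 ≤ K ∧
    ∀ E v : ℂ → ℝ, Maj E → Maj v →
      (∀ z ∈ ball (0 : ℂ) 1, E z ≤ M ∧ v z ≤ 1 ∧ v z ≤ C * E z ^ 2) →
      (∀ p ∈ Orb, p ∈ ball (0 : ℂ) 1 →
        c * E p ^ 2 ≤ E p - Real.circleAverage (fun ζ => E (mb p ζ)) 0 r0) →
      ∀ k : ℕ, cm v ((2 : ℝ) ^ k) ≤ K * ((k : ℝ) + 1) ^ 3 / 4 ^ k

end Pool.Agent.Helper69.QC
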