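import Pool.Agent.Helper69.QC.Top
import Pool.Agent.Helper29.QC.M_RRB
import Pool.Agent.Helper6.QC.M_MBB
import Pool.Agent.Helper54.QC.M_HAR
import Pool.Agent.Helper54.QC.M_POA
import Pool.Agent.Helper54.QC.M_POC
import Pool.Agent.Helper54.QC.M_DEF
import Pool.Agent.Helper54.QC.M_MON
import Pool.Agent.Helper64.QC.M_DIF
import Pool.Agent.Helper89.QC.M_CSI
import Pool.Agent.Helper95.QC.M_SHA
import Pool.Agent.Helper42.QC.M_STB
import Pool.Agent.Helper32.QC.M_TRN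
import Pool.Agent.Helper37.QC.M_FRM
import Pool.Agent.Helper32.QC.M_CNA
import Pool.Agent.Helper32.QC.M_CNB
import Pool.Agent.Helper28.QC.M_CNC
import Pool.Agent.Helper72.QC.M_CNT
import Pool.Agent.Helper95.QC.M_REC
import Pool.Agent.Helper95.QC.M_RDA
import Pool.Agent.Helper38.QC.M_RED
import Pool.Agent.Helper95.QC.M_NMW
import Pool.Agent.Helper95.QC.M_NMA
import Pool.Agent.Helper95.QC.M_NMB
import Pool.Agent.Helper93.QC.M_MVV
import Pool.Agent.Helper22.QC.M_FIN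
import Pool.Agent.Helper41.QC.M_MCC

/-! # Project QD, part C: Theorem C -/

namespace Pool.Agent.Helper69.QC

theorem rrb_ : St_RRB := Pool.Agent.Helper29.QC.cRRB
theorem mbb_ : St_MBB := Pool.Agent.Helper6.QC.cMBB
theorem har_ : St_HAR := Pool.Agent.Helper54.QC.cHAR mbb_
theorem poa_ : St_POA := Pool.Agent.Helper54.QC.cPOA har_
theorem poc_ : St_POC := Pool.Agent.Helper54.QC.cPOC har_ poa_
theorem def_ : St_DEF := Pool.Agent.Helper54.QC.cDEF rrb_ mbb_ har_ poa_ poc_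
theorem mon_ : St_MON := Pool.Agent.Helper54.QC.cMON rrb_ har_ poc_
theorem dif_ : St_DIF := Pool.Agent.Helper64.QC.cDIF rrb_ mbb_ har_ poa_ poc_
theorem csi_ : St_CSI := Pool.Agent.Helper89.QC.cCSI rrb_ har_
theorem sha_ : St_SHA := Pool.Agent.Helper95.QC.cSHA rrb_ har_ poa_
theorem stb_ : St_STB := Pool.Agent.Helper42.QC.cSTB
theorem trn_ : St_TRN := Pool.Agent.Helper32.QC.cTRN rrb_ har_ stb_ sha_
theorem frm_ : St_FRM := Pool.Agent.Helper37.QC.cFRM rrb_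
theorem cna_ : St_CNA := Pool.Agent.Helper32.QC.cCNA rrb_ frm_
theorem cnt_ : St_CNT :=
  Pool.Agent.Helper72.QC.cCNT cna_ Pool.Agent.Helper32.QC.cCNB Pool.Agent.Helper28.QC.cCNC
theorem rec_ : St_REC := Pool.Agent.Helper95.QC.cREC rrb_ har_ stb_ trn_ cnt_
theorem red_ : St_RED := Pool.Agent.Helper38.QC.cRED Pool.Agent.Helper95.QC.cRDA
theorem nma_ : St_NMA := Pool.Agent.Helper95.QC.cNMA Pool.Agent.Helper95.QC.cNMW
theorem nmb_ : St_NMB := Pool.Agent.Helper95.QC.cNMB Pool.Agent.Helper95.QC.cNMW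
theorem mvv_ : St_MVV := Pool.Agent.Helper93.QC.cMVV

/-- Decay of the means. -/
theorem top2_ : St_TOP2 :=
  top2 rrb_ har_ def_ dif_ mon_ csi_ stb_ rec_ red_ nma_ nmb_

/-- Theorem C, given MCC. -/
theorem thc_of (mcc : St_MCC) : St_THC :=
  thc top2_ mvv_ (Pool.Agent.Helper22.QC.cFIN rrb_ mvv_ mcc)

/-- Theorem C. -/
theorem thc_ : St_THC := thc_of (Pool.Agent.Helper41.QC.cMCC mvv_)

end Pool.Agent.Helper69.QC
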