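import Pool.Agent.Helper35.PQF.All3
import Pool.Agent.Helper69.QC.St

/-!
# Project QD, part C: from the decay of the defect to the pressure distance.  Statements with
proofs in the docstrings.
-/

open Complex MeasureTheory Set Filter Topology Metric
open scoped Real ENNReal

namespace Pool.Agent.Helper69.QC

open Pool.Agent.Helper35.PM

/-- The defect `(2 - h)/h`. -/
noncomputable def vv {g : ℕ} (ρ : SurfaceGroup g →* SL) : ℝ := (2 - ent ρ) / ent ρ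

/-- **MVV**.  `po_`, `qf_` (Pool/Agent/Helper35/PQF/All.lean and the use in `jc`, PQF/M_JC.lean: the
lemma `pot` there) give `Pot (1/ent (f ·)) _`: with `u = 1/ent` one has `u ≥ 1/2` (so `0 < ent ≤ 2`)
and for every `p` a holomorphic `G` with `u ≤ Re G`, `Re G p = u p`.  `vv = 2u - 1`; take `2G - 1`. -/
def St_MVV : Prop :=
  ∀ g : ℕ, 2 ≤ g → ∀ U : (SurfaceGroup g →* SL) → Ultrafilter ℝ,
    (∀ ρ, IsQF ρ → Adapted (U ρ) ρ) → ∀ f : ℂ → SurfaceGroup g →* SL, HolDisc f →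
      Maj (fun z => vv (f z)) ∧ ∀ z ∈ ball (0 : ℂ) 1, 0 < ent (f z) ∧ ent (f z) ≤ 2

/-- **MCC** (mean cost of the middle path).  `ψ(θ,t) = √(2 - ent (F (zt t) (pt (-y) θ)))` is jointly
continuous (`hψ` in the proof of `jc`, Pool/Agent/Helper35/PQF/M_JC.lean: copy that proof).
With `S = ∫_0^L ψ(θ,t) dt`, `b = ψ(θ,0) + ψ(θ,L)`: `cost = √(S(S+b)/2) ≤ S + b`.  Mean over `θ`:
`(2π)⁻¹ ∫ S dθ = ∫_0^L (mean of ψ(·,t)) dt` (Fubini for continuous functions on a rectangle,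
`intervalIntegral_integral_interchange` style or `MeasureTheory.integral_integral_swap`), and for
every `t`: `mean ψ(·,t) ≤ √(mean ψ(·,t)²)` (Cauchy-Schwarz)
`= √(mean (2 - ent)) ≤ √(2 mean vv) = √(2 mdef (F (zt t)) y) ≤ √(2B)`, since
`2 - ent = ent * vv ≤ 2 vv` (St_MVV: `0 < ent ≤ 2`, `vv ≥ 0`).  Total `≤ (L + 2) √(2B)`. -/
def St_MCC : Prop :=
  ∀ g : ℕ, 2 ≤ g → ∀ U : (SurfaceGroup g →* SL) → Ultrafilter ℝ,
    (∀ ρ, IsQF ρ → Adapted (U ρ) ρ) → ∀ F : ℂ → ℂ → SurfaceGroup g →* SL,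
      (∀ z ∈ Metric.ball (0 : ℂ) 1, HolDisc (F z)) →
      (∀ w ∈ Metric.ball (0 : ℂ) 1, HolDisc (fun z => F z w)) →
      ∀ B y L : ℝ, 0 ≤ B → 0 < y → 0 ≤ L →
        (∀ z ∈ Metric.ball (0 : ℂ) 1, mdef (F z) y ≤ B) →
        (2 * π)⁻¹ * ∫ θ in (0 : ℝ)..(2 * π), cost (fun z => F z (pt (-y) θ)) L ≤
          (L + 2) * Real.sqrt (2 * B)

/-- **FIN** (detour along the scales `2^k`).  Put `y 0 = 1`, `y (k+1) = -log (rr (2^k))`.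
`pt (-y) θ = circleMap 0 (e^{-y}) θ`, so `mdef (F z) (y (k+1)) = cm (vv ∘ F z) (2^k)` and
`mdef (F z) 1 ≤ V0`.  `y` is positive and antitone (St_RRB: `rr` increasing, `< 1`;
`rr 1 = (e-1)/(e+1) ≥ e⁻¹` gives `y 1 ≤ 1`).  `y (k+1) ≥ 1 - rr (2^k) = 2/(e^{2^k}+1) ≥ e^{-2^k}`
and `y k ≤ 1`, so `0 ≤ log (y k/y (k+1)) ≤ 2^k`.  By `dt_` (Pool/Agent/Helper35/PQF/All3.lean) for
every `n ≥ 1`:
`d ≤ ofReal (3 + Σ_{k<n} (√mdef (F 0) (y k) + √mdef (F (zt L)) (y k)) √log(..) + (mean cost))`.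
The term `k = 0` is `≤ 2 √V0`, the term `k ≥ 1` is `≤ 2 √(K k³/4^{k-1}) √(2^k) ≤ 4 √K k² 2^{-k/2}`;
the last one is `≤ (L+2) √(2 K n³/4^{n-1})` by St_MCC, which tends to `0`.  So
`D = 3 + 2√V0 + 4 √K Σ' k² (2^{-1/2})^k` works (`summable_pow_mul_geometric_of_norm_lt_one`,
`Summable.sum_le_tsum`; let `n → ∞`: `ge_of_tendsto`, `ENNReal.ofReal` is continuous). -/
def St_FIN : Prop :=
  ∀ K V0 : ℝ, 0 ≤ K → 0 ≤ V0 → ∃ D : ℝ, 0 ≤ D ∧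
    ∀ g : ℕ, 2 ≤ g → ∀ U : (SurfaceGroup g →* SL) → Ultrafilter ℝ,
    (∀ ρ, IsQF ρ → Adapted (U ρ) ρ) → ∀ F : ℂ → ℂ → SurfaceGroup g →* SL,
      (∀ z ∈ Metric.ball (0 : ℂ) 1, HolDisc (F z)) →
      (∀ w ∈ Metric.ball (0 : ℂ) 1, HolDisc (fun z => F z w)) →
      (∀ z ∈ Metric.ball (0 : ℂ) 1, ∀ w ∈ Metric.ball (0 : ℂ) 1, vv (F z w) ≤ V0) →
      (∀ z ∈ Metric.ball (0 : ℂ) 1, ∀ k : ℕ,
        cm (fun w => vv (F z w)) ((2 : ℝ) ^ k) ≤ K * ((k : ℝ) + 1) ^ 3 / 4 ^ k) →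
      ∀ L : ℝ, 0 ≤ L → pressureDist U (F 0 0) (F (zt L) 0) ≤ ENNReal.ofReal D

/-- **THC** (Theorem C; assembly: helper69). -/
def St_THC : Prop :=
  ∀ M c r0 C : ℝ, 0 < M → 0 < c → 0 ≤ r0 → r0 < 1 → 0 ≤ C → ∃ D : ℝ, 0 ≤ D ∧
    ∀ g : ℕ, 2 ≤ g → ∀ U : (SurfaceGroup g →* SL) → Ultrafilter ℝ,
    (∀ ρ, IsQF ρ → Adapted (U ρ) ρ) → ∀ F : ℂ → ℂ → SurfaceGroup g →* SL,
      (∀ z ∈ Metric.ball (0 : ℂ) 1, HolDisc (F z)) →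
      (∀ w ∈ Metric.ball (0 : ℂ) 1, HolDisc (fun z => F z w)) →
      ∀ E : ℂ → ℂ → ℝ,
      (∀ z ∈ Metric.ball (0 : ℂ) 1, Maj (E z) ∧
        (∀ w ∈ Metric.ball (0 : ℂ) 1, E z w ≤ M ∧ vv (F z w) ≤ C * E z w ^ 2) ∧
        ∀ p ∈ Orb, p ∈ Metric.ball (0 : ℂ) 1 →
          c * E z p ^ 2 ≤ E z p - Real.circleAverage (fun ζ => E z (mb p ζ)) 0 r0) →
      ∀ L : ℝ, 0 ≤ L → pressureDist U (F 0 0) (F (zt L) 0) ≤ ENNReal.ofReal D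

end Pool.Agent.Helper69.QC
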