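import Pool.Agent.Helper69.QC.St2

/-! # Project QD, part C: assembly -/

open Complex MeasureTheory Set Filter Topology Metric
open scoped Real ENNReal ComplexConjugate

namespace Pool.Agent.Helper69.QC

/-- Decay of the means of the defect. -/
def St_TOP2 : Prop :=
  ∀ M c r0 C : ℝ, 0 < M → 0 < c → 0 ≤ r0 → r0 < 1 → 0 ≤ C → ∃ K : ℝ, 0 ≤ K ∧
    ∀ E v : ℂ → ℝ, Maj E → Maj v →
      (∀ z ∈ ball (0 : ℂ) 1, E z ≤ M ∧ v z ≤ C * E z ^ 2) →
      (∀ p ∈ Orb, p ∈ ball (0 : ℂ) 1 →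
        c * E p ^ 2 ≤ E p - Real.circleAverage (fun ζ => E (mb p ζ)) 0 r0) →
      ∀ k : ℕ, cm v ((2 : ℝ) ^ k) ≤ K * ((k : ℝ) + 1) ^ 3 / 4 ^ k

theorem mem_of_sphere (rrb : St_RRB) {t : ℝ} (ht : 0 ≤ t) {x : ℂ}
    (hx : x ∈ sphere (0 : ℂ) |rr t|) : x ∈ ball (0 : ℂ) 1 := by
  have h1 := rrb.1 t ht
  have h2 := rrb.2.1 t
  rw [abs_of_nonneg h1] at hx
  simp only [mem_sphere_iff_norm, sub_zero] at hx
  simpa [hx] using h2

theorem ci_ind (rrb : St_RRB) {f : ℂ → ℝ} (hf : ContinuousOn f (ball 0 1)) {T : Set ℂ}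
    (hT : MeasurableSet T) {t : ℝ} (ht : 0 ≤ t) : CircleIntegrable (T.indicator f) 0 (rr t) := by
  have h1 := rrb.1 t ht
  have h2 := rrb.2.1 t
  have hm : ∀ θ : ℝ, circleMap 0 (rr t) θ ∈ ball (0 : ℂ) 1 := by
    intro θ
    simpa [abs_of_nonneg h1] using h2
  have hc : Continuous (fun θ : ℝ => f (circleMap 0 (rr t) θ)) :=
    hf.comp_continuous (continuous_circleMap 0 (rr t)) hm
  unfold CircleIntegrable
  have e : (fun θ : ℝ => T.indicator f (circleMap 0 (rr t) θ)) =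
      ((circleMap 0 (rr t)) ⁻¹' T).indicator (fun θ : ℝ => f (circleMap 0 (rr t) θ)) := by
    funext θ
    by_cases h : circleMap 0 (rr t) θ ∈ T
    · rw [Set.indicator_of_mem h, Set.indicator_of_mem (by exact h)]
    · rw [Set.indicator_of_notMem h, Set.indicator_of_notMem (by exact h)]
  rw [e, intervalIntegrable_iff]
  have h3 := hc.intervalIntegrable (μ := volume) 0 (2 * π)
  rw [intervalIntegrable_iff] at h3
  exact h3.indicator ((continuous_circleMap 0 (rr t)).measurable hT)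

theorem cm_nonneg {f : ℂ → ℝ} (rrb : St_RRB) {t : ℝ} (ht : 0 ≤ t)
    (h : ∀ z ∈ ball (0 : ℂ) 1, 0 ≤ f z) : 0 ≤ cm f t :=
  Real.circleAverage_nonneg_of_nonneg fun _ hx => h _ (mem_of_sphere rrb ht hx)

theorem top2 (rrb : St_RRB) (har : St_HAR) (def_ : St_DEF) (dif : St_DIF) (mon : St_MON)
    (csi : St_CSI) (stb : St_STB) (rec_ : St_REC) (red : St_RED) (nma : St_NMA)
    (nmb : St_NMB) : St_TOP2 := by
  intro M c r0 C hM hc hr0 hr01 hC
  obtain ⟨r1, hr1, hr11, hred⟩ := red (1 / 4) (by norm_num)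
  obtain ⟨c', hc', R, hR, hdef⟩ := def_ c r0 r1 hc hr0 hr01 hr1 hr11
  set Rn : ℕ := ⌊R⌋₊ + 1 with hRn
  have hRlt : R < (Rn : ℝ) := by
    rw [hRn]; push_cast; exact Nat.lt_floor_add_one R
  obtain ⟨K1, hK1, hnma⟩ := nma c' M 100 (30 * M) Rn hc' hM.le (by norm_num) (by positivity)
  have hV0 : 0 ≤ C * M ^ 2 := by positivity
  obtain ⟨K, hK, hnmb⟩ := nmb c' (C * M ^ 2) (100 * C) (30 * (C * M ^ 2)) K1 Rn hc' hV0
    (by positivity) (by positivity) hK1
  refine ⟨K, hK, fun E v hE hv hb hs k => ?_⟩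
  set T : Set ℂ := Thk (1 / 4) with hT
  have hTm : MeasurableSet T := stb.2 _
  have hTe : Thk ((1 : ℝ) / 2 / 2) = T := by rw [hT]; norm_num
  have hstr : ∀ w ∈ T, w ∈ ball (0 : ℂ) 1 →
      c' * E w ^ 2 ≤ E w - Real.circleAverage (fun η => E (mb w η)) 0 (rr R) := by
    intro w hw _
    obtain ⟨p, hpO, hpb, ζ, hζ, rfl⟩ := hred w hw
    exact hdef E hE p hpb (hs p hpO hpb) ζ hζ
  have hdif := dif E hE T hTm c' R hc' hR hstr
  have hEc := (har E hE).1
  have hvc := (har v hv).1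
  have hvb : ∀ z ∈ ball (0 : ℂ) 1, v z ≤ C * M ^ 2 := by
    intro z hz
    have h1 := (hb z hz).2
    have h2 := (hb z hz).1
    have h3 := hE.1 z hz
    have : E z ^ 2 ≤ M ^ 2 := by gcongr
    nlinarith
  have hQ0 : ∀ t : ℝ, 0 ≤ t → 0 ≤ cm (T.indicator (fun z => E z ^ 2)) t := fun t ht =>
    cm_nonneg rrb ht fun z _ => Set.indicator_nonneg (fun _ _ => sq_nonneg _) z
  have hMA : Antitone (fun j : ℕ => cm E (j : ℝ)) := by
    intro i j hij
    exact (mon E hE i j (by positivity) (by exact_mod_cast hij)).1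
  have hVA : Antitone (fun j : ℕ => cm v (j : ℝ)) := by
    intro i j hij
    exact (mon v hv i j (by positivity) (by exact_mod_cast hij)).1
  have hd : ∀ j : ℕ, c' * cm (T.indicator (fun z => E z ^ 2)) (j : ℝ) ≤
      cm E (j : ℝ) - cm E ((j + Rn : ℕ) : ℝ) := by
    intro j
    have := hdif (j : ℝ) (Rn : ℝ) (by positivity) hRlt
    push_cast
    exact this
  have hM1 : ∀ k : ℕ, cm E ((2 ^ k : ℕ) : ℝ) ≤ K1 * ((k : ℝ) + 1) ^ 2 / 2 ^ k := by
    refine hnma (fun j => cm E (j : ℝ)) (fun j => cm (T.indicator (fun z => E z ^ 2)) (j : ℝ))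
      ?_ hMA hd ?_
    · intro j
      obtain ⟨h1, h2, h3⟩ := mon E hE (j : ℝ) (j : ℝ) (by positivity) le_rfl
      exact ⟨h2, h3 M fun z hz => (hb z hz).1, hQ0 _ (by positivity)⟩
    · intro S t hS hSt
      have h1 := rec_ E hE M (fun z hz => (hb z hz).1) (1 / 2) (by norm_num) (by norm_num) S t
        hS hSt
      rw [hTe] at h1
      refine h1.trans ?_
      have h2 : ∑ j ∈ Finset.Ico (t - S) t, cm (T.indicator E) (j : ℝ) ≤
          ∑ j ∈ Finset.Ico (t - S) t, Real.sqrt (cm (T.indicator (fun z => E z ^ 2)) (j : ℝ)) :=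
        Finset.sum_le_sum fun j _ => csi E hE T hTm j (by positivity)
      linarith
  have hfin := hnmb (fun j => cm E (j : ℝ)) (fun j => cm (T.indicator (fun z => E z ^ 2)) (j : ℝ))
    (fun j => cm v (j : ℝ)) ?_ hMA hVA hd hM1 ?_ k
  · have e : (((2 : ℕ) ^ k : ℕ) : ℝ) = (2 : ℝ) ^ k := by push_cast; ring
    simp only [e] at hfin
    exact hfin
  · intro j
    obtain ⟨h1, h2, h3⟩ := mon E hE (j : ℝ) (j : ℝ) (by positivity) le_rfl
    obtain ⟨g1, g2, g3⟩ := mon v hv (j : ℝ) (j : ℝ) (by positivity) le_rfl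
    exact ⟨h2, hQ0 _ (by positivity), g2, g3 _ hvb⟩
  · intro S t hS hSt
    have h1 := rec_ v hv (C * M ^ 2) hvb (1 / 2) (by norm_num) (by norm_num) S t hS hSt
    rw [hTe] at h1
    refine h1.trans ?_
    have h2 : ∑ j ∈ Finset.Ico (t - S) t, cm (T.indicator v) (j : ℝ) ≤
        ∑ j ∈ Finset.Ico (t - S) t, C * cm (T.indicator (fun z => E z ^ 2)) (j : ℝ) := by
      refine Finset.sum_le_sum fun j _ => ?_
      have hj : (0 : ℝ) ≤ (j : ℝ) := by positivity
      have hE2 : ContinuousOn (fun z => E z ^ 2) (ball (0 : ℂ) 1) := hEc.pow 2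
      have i1 : CircleIntegrable (T.indicator v) 0 (rr (j : ℝ)) := ci_ind rrb hvc hTm hj
      have i2 : CircleIntegrable (T.indicator (fun z => C * E z ^ 2)) 0 (rr (j : ℝ)) :=
        ci_ind rrb (continuousOn_const.mul hE2) hTm hj
      have h3 : cm (T.indicator v) (j : ℝ) ≤ cm (T.indicator (fun z => C * E z ^ 2)) (j : ℝ) := by
        refine Real.circleAverage_mono i1 i2 fun x hx => ?_
        have hxb := mem_of_sphere rrb hj hx
        by_cases hxT : x ∈ T
        · rw [Set.indicator_of_mem hxT, Set.indicator_of_mem hxT]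
          exact (hb x hxb).2
        · rw [Set.indicator_of_notMem hxT, Set.indicator_of_notMem hxT]
      refine h3.trans (le_of_eq ?_)
      unfold cm
      have e : (T.indicator (fun z => C * E z ^ 2)) =
          C • (T.indicator (fun z => E z ^ 2)) := by
        funext x
        by_cases hxT : x ∈ T
        · rw [Set.indicator_of_mem hxT, Pi.smul_apply, Set.indicator_of_mem hxT, smul_eq_mul]
        · rw [Set.indicator_of_notMem hxT, Pi.smul_apply, Set.indicator_of_notMem hxT, smul_zero]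
      rw [e, Real.circleAverage_smul, smul_eq_mul]
    rw [← Finset.mul_sum] at h2
    have h4 : 100 * ∑ j ∈ Finset.Ico (t - S) t, cm (T.indicator v) (j : ℝ) ≤
        100 * C * ∑ j ∈ Finset.Ico (t - S) t, cm (T.indicator (fun z => E z ^ 2)) (j : ℝ) := by
      nlinarith
    linarith

/-- Theorem C. -/
theorem thc (top : St_TOP2) (mvv : St_MVV) (fin : St_FIN) : St_THC := by
  intro M c r0 C hM hc hr0 hr01 hC
  obtain ⟨K, hK, htop⟩ := top M c r0 C hM hc hr0 hr01 hC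
  obtain ⟨D, hD, hfin⟩ := fin K (C * M ^ 2) hK (by positivity)
  refine ⟨D, hD, fun g hg U hU F hF1 hF2 E hE L hL => ?_⟩
  refine hfin g hg U hU F hF1 hF2 ?_ ?_ L hL
  · intro z hz w hw
    obtain ⟨h1, h2, h3⟩ := hE z hz
    have h4 := (h2 w hw).2
    have h5 := (h2 w hw).1
    have h6 := h1.1 w hw
    have : E z w ^ 2 ≤ M ^ 2 := by gcongr
    nlinarith
  · intro z hz k
    obtain ⟨h1, h2, h3⟩ := hE z hz
    exact htop (E z) (fun w => vv (F z w)) h1 (mvv g hg U hU (F z) (hF1 z hz)).1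
      (fun w hw => ⟨(h2 w hw).1, (h2 w hw).2⟩) h3 k

end Pool.Agent.Helper69.QC
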